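import Pool.Agent.Helper13.MLT.Defs
import Pool.Agent.Helper97.TW.Defs

/-!
# Project PD (MP_e66f84_ag): cyclic covers of prime degree `ℓ`, any number of rational branch points

`k` a number field with the `ℓ`-th roots of unity, `Y` a curve over `k`, `y ^ ℓ = h` a cyclic cover,
`R` the set of the rational branch points, not empty.  For 100% of the `c ∈ k*/k* ^ ℓ`, for every
action `Φ` of the twist `y ^ ℓ = c h` there is `b₀ ∈ R` such that all `Φ σ` fix a place above `b₀` of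
a given level, abelian of exponent `ℓ` over `L0`.  Hypotheses: `n ℓ ^ 2 < ℓ ^ n` (`n` branch points),
and for two points of `R`: `ℓ` is odd and every Frobenius element has an orbit of length prime to `ℓ`
outside of them.  (`ℓ = 2`: one rational branch point, project TW.)
-/

set_option autoImplicit false

namespace Pool.Agent.PD

open VC Filter Topology NumberField IsDedekindDomain IntermediateField Pool.Agent.SC
open Pool.Agent.L (Inert L0 MM SamePlace OverV)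
open Pool.Agent.LN (Geo Act IsRam DecPt)
open Pool.Agent.M (UR NN Moves OverPl inL0)
open Pool.Agent.HG (Pr nm Ctx Gd Special BadT)
open Pool.Agent.Helper99.HG (CD pf Nm)
open Pool.Agent.MP (SysR TAR)
open Pool.Agent.Helper99.ML (BTb)
open Pool.Agent.ML (HasMu BPl IsZ sgn OkL cdL ggL DatL)
open Pool.Agent.MLT (WJbt TBRbt)

noncomputable section

/-! ## The counting theorems -/

section count

variable {k : ℕ} {G : Type}

/-- few sets of primes of `R` with norms above `Y`, with option of the component `j₀`, satisfy the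
conditions at `m` (`HG.BTR` is the case `b = 1 / 2`, `κ = 1`) -/
def BTP [CommGroup G] (D : CD k G) (b κ : ℝ) (R : Set D.P) (Ok : Finset D.P → Prop)
    (j₀ : Fin k) : Prop :=
  ∃ (C : ℝ) (A : ℕ), 0 < C ∧ ∀ (m : Finset D.P), (∀ p ∈ m, p ∉ D.Ex) →
    ∀ τ : D.P → D.O, (∀ p ∈ m, τ p ∈ D.V p) → ∀ t : D.P → D.ι → G, ∀ Y h : ℕ, 2 ≤ Y →
    Real.log Y ≤ Real.log h ^ (1 / 2 : ℝ) → Nm D m ^ A ≤ h → ∀ (o : D.P → D.O)
    (E : Finset (Finset D.P)), (∀ e ∈ E, Nm D e ≤ h ∧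
      (∃ m' : Finset D.P, Ok m' ∧ m ⊆ m' ∧ e ⊆ m') ∧
      (∀ q ∈ e, q ∈ R ∧ q ∉ D.Ex ∧ q ∉ m ∧ Y < D.nm q ∧ o q ∈ D.V q ∧ D.cmp (o q) = j₀) ∧
      ∀ p ∈ m, ∀ i ∈ D.I p (τ p) j₀, ∏ q ∈ e, D.χ p i q (o q) = t p i) →
    (E.card : ℝ) ≤ C * (∏ p ∈ m, b ^ (D.I p (τ p) j₀).card) *
      (h * Real.log h ^ (κ - 1) / Real.log Y ^ κ)

/-- BLOCK P1 (`TW3.StmtCountNR` with `Ok`, `R`, `b`, `κ`, as in `MLT.StmtCountLT`): for every special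
component `j` of `R₀` some prime with option outside `j` is not small. -/
def StmtCountN : Prop :=
  ∀ (k : ℕ) (G : Type) [CommGroup G] (D : CD k G) (b : ℝ), 0 < b → b ≤ 1 →
    ∀ Ok : Finset D.P → Prop, (∀ m c, m ⊆ c → Ok c → Ok m) → ∀ (R : Set D.P) (κ : ℝ), 1 ≤ κ →
    SysR D.P D.nm R κ → (∃ K : ℕ, ∀ p, (D.V p).card ≤ K) → BTb D b Ok →
    ∀ R₀ : Finset (Fin k), R₀.Nonempty → (∀ j ∈ R₀, Special D j) →
    (∀ J : Finset (Fin k), (∃ j ∈ R₀, J = {j}) ∨ TAR D R J ∨ TBRbt D b R κ J) →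
    ∀ ε : ℝ, 0 < ε → ε < 1 →
    ∃ η C : ℝ, 0 < η ∧ 0 < C ∧ ∀ X : ℕ, 3 ≤ X → ∀ S : Finset (Finset D.P),
      (∀ c ∈ S, Nm D c ≤ X ∧ (∀ p ∈ pf D c, p ∈ R) ∧ Ok c ∧ ∃ τ : D.P → D.O, BadT D c τ ∧
        ∀ j ∈ R₀, ∃ p ∈ pf D c, D.cmp (τ p) ≠ j ∧ Real.exp (Real.log X ^ ε) ≤ D.nm p) →
      (S.card : ℝ) ≤ C * X * Real.log X ^ (κ - 1 - η)

/-- BLOCK P2 (`TW.StmtCountLt` with `Ok`, `R`, `b`, `κ`): the primes with option outside `j₀` are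
small, but not all of them very small. -/
def StmtCountL : Prop :=
  ∀ (k : ℕ) (G : Type) [CommGroup G] (D : CD k G) (b : ℝ), 0 < b → b ≤ 1 →
    ∀ Ok : Finset D.P → Prop, (∀ m c, m ⊆ c → Ok c → Ok m) → ∀ (R : Set D.P) (κ : ℝ), 1 ≤ κ →
    SysR D.P D.nm R κ → (∃ K : ℕ, ∀ p, (D.V p).card ≤ K) → BTb D b Ok →
    ∀ j₀ : Fin k, Special D j₀ → BTP D b κ R Ok j₀ →
    (∀ J : Finset (Fin k), j₀ ∈ J → J ≠ {j₀} → TBRbt D b R κ J) →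
    ∃ ε η C : ℝ, 0 < ε ∧ ε < 1 ∧ 0 < η ∧ 0 < C ∧ ∀ X B : ℕ, 3 ≤ X → 2 ≤ B →
      ∀ S : Finset (Finset D.P), (∀ c ∈ S, Nm D c ≤ X ∧ (∀ p ∈ pf D c, p ∈ R) ∧ Ok c ∧
        ∃ τ : D.P → D.O, BadT D c τ ∧
        (∃ p ∈ pf D c, D.cmp (τ p) ≠ j₀ ∧ B ≤ D.nm p) ∧
        ∀ p ∈ pf D c, D.cmp (τ p) ≠ j₀ → (D.nm p : ℝ) ≤ Real.exp (Real.log X ^ ε)) →
      (S.card : ℝ) ≤ C * X * Real.log X ^ (κ - 1) * (1 / Real.log B ^ η + 1 / Real.log X ^ η)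

end count

/-! ## The sieve -/

/-- BLOCK P3 (`HG.StmtBTLR` is the case `ℓ = 2`): elements without prime factors between `K` and `Y`,
with prescribed `ℓ`-th power residue symbols. -/
def StmtBTLP : Prop :=
  ∀ ℓ : ℕ, ℓ.Prime → ∀ (k : Type) [Field k] [NumberField k] (K : ℝ), 1 ≤ K →
    ∃ (C : ℝ) (A h₀ : ℕ), 0 < C ∧ ∀ h Y : ℕ, h₀ ≤ h → 2 ≤ Y →
      Real.log Y ≤ K * Real.log h ^ (1 / 2 : ℝ) → ∀ MM : Finset (Pr k),
      (∀ q ∈ MM, ℓ ∣ nm q - 1) → (∏ q ∈ MM, nm q) ^ A ≤ h →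
      ∀ η : ∀ q : Pr k, 𝓞 k ⧸ q.asIdeal, ∀ T : Finset (𝓞 k),
        (∀ x ∈ T, (∀ φ : k →+* ℂ, ‖φ x‖ ≤ K * (h : ℝ) ^ ((1 : ℝ) / Module.finrank ℚ k)) ∧ x ≠ 0 ∧
          (∀ q : Pr k, K < nm q → nm q ≤ Y → x ∉ q.asIdeal) ∧
          ∀ q ∈ MM, x ∉ q.asIdeal ∧ Ideal.Quotient.mk q.asIdeal x ^ ((nm q - 1) / ℓ) = η q) →
        (T.card : ℝ) ≤ C * (1 / ℓ) ^ MM.card * (h / Real.log Y)

/-- BLOCK P4 (`TW.StmtBTRM` is the case `ℓ = 2`): the hypothesis `BTP` for a root `a ∈ k`.  (The sets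
`e` are split according to the labels; fix all parts but the largest one, `x`, then `x` has norm at
least `h ^ (1 / (ℓ - 1))` up to a constant, and `StmtBTLP` gives `h / P / log Y` if the other parts
have norm `P`; the sum of `1 / P` is at most `C (log h / log Y) ^ (ℓ - 2)`.) -/
def StmtBTPL : Prop :=
  StmtBTLP → ML.StmtSel → HG.StmtMert → ∀ (k L : Type) [Field k] [NumberField k] [Field L]
    [NumberField L] [Algebra k L] [IsGalois k L] (f : Polynomial k) (X : Ctx k L f) (ℓ : ℕ)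
    [NeZero ℓ], ℓ.Prime → HasMu k ℓ → ℓ ∣ X.M → ∀ a : k, Polynomial.eval a f = 0 →
    ∀ (hm : 0 < X.m) (hfin : {v : Pr k | ¬ Gd X.M v}.Finite) (ι : Type)
      (Vι : Pr k → L → Finset ι) (w : L → Fin ℓ → ℕ)
      (g : Pr k × Fin ℓ → (Σ _ : L × rootsOfUnity ℓ k, ι) → L → rootsOfUnity ℓ k),
    (∀ e θ, ¬ ℓ ∣ w θ e) →
    BTP (cdL X ℓ ℓ hm hfin ι Vι (fun _ _ => True) w g) (1 / ℓ) ((ℓ - 1 : ℕ) : ℝ)
      {p : Pr k × Fin ℓ | ¬ ℓ ∣ (p.2 : ℕ)} OkL (X.cmp hm (algebraMap k L a))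

/-! ## The relations and the weights -/

/-- BLOCK P5 (`MLT.StmtG1X` with the given options, as in `TW.StmtG1t`): the relations. -/
def StmtG1 : Prop :=
  ML.StmtSel → ∀ (k L : Type) [Field k] [NumberField k] [Field L] [NumberField L] [Algebra k L]
    [IsGalois k L] (f : Polynomial k) (X : Ctx k L f) (ℓ : ℕ) [NeZero ℓ], ℓ.Prime →
    HasMu k ℓ → ℓ ∣ X.M → 2 ≤ f.natDegree →
    ∀ (hm : 0 < X.m) (hfin : {v : Pr k | ¬ Gd X.M v}.Finite) (ι : Type)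
      (Vι : Pr k → L → Finset ι) (w : L → Fin ℓ → ℕ)
      (SG : Pr k → ι → ℕ → L → L → rootsOfUnity ℓ k),
    ∃ (H : Type) (_ : Finite H) (hh : H → L → L → L),
      ∀ (c : k) (S : Finset (Pr k × Fin ℓ)) (D : L → L → L) (t : Pr k → L) (i : Pr k → ι),
      DatL X ℓ ℓ c S w D t (fun v => SG v (i v)) → (∀ v e, (v, e) ∈ S → i v ∈ Vι v (t v)) →
      ∃ (h : H) (u : Pr k → rootsOfUnity ℓ k),
        BadT (cdL X ℓ ℓ hm hfin ι Vι (fun _ _ => True) w (ggL X ℓ hm w SG (hh h))) S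
          (fun p => ⟨(t p.1, u p.1), i p.1⟩)

open scoped Classical in
/-- BLOCK P6 (as `MLT.StmtG3T` and `TW.StmtG3t`): the weights, with rational roots.  Let `J` be a set
of roots, `F v` with `a` fixed points and `r` orbits on `J`.  If some orbit outside `J` has length
prime to `ℓ` then the weight is at most `a ℓ ^ (1 - r)` (`MLT.wjT_forced`); else it is at most
`a ℓ ^ (2 - r)`.  Two rational roots: `2 / ℓ < 1`.  Two conjugate roots: at most `2` for half of the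
`v`, else `0`, and `2 / ℓ` if `F v = 1`.  `|J| ≥ 3`: at most `1`, and less than `1` if `F v = 1`, as in
`MLT.StmtG3T` (`MLT.wjT_le_one`, `MLT.wjT_split`). -/
def StmtG3 : Prop :=
  HG.StmtMert → HG.StmtSplit → MP.StmtDK → M.StmtW3 → ∀ (k L : Type) [Field k] [NumberField k]
    [Field L] [NumberField L] [Algebra k L] [IsGalois k L] (f : Polynomial k) (ℓ : ℕ) [NeZero ℓ],
    ℓ.Prime → HasMu k ℓ → (ℓ = 2 → Even f.natDegree) → f.natDegree * ℓ ^ 2 < ℓ ^ f.natDegree →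
    (∃ a : k, Polynomial.eval a f = 0) →
    (∀ a b : k, Polynomial.eval a f = 0 → Polynomial.eval b f = 0 → a ≠ b → ℓ ≠ 2 ∧
      ∀ σ : L ≃ₐ[k] L, ∃ θ ∈ f.rootSet L, θ ≠ algebraMap k L a ∧ θ ≠ algebraMap k L b ∧
        ∃ n : ℕ, ¬ ℓ ∣ n ∧ (σ ^ n) θ = θ) →
    ∀ K : ℕ, ∃ ε : ℝ, 0 < ε ∧ ∀ (X : Ctx k L f) (hm : 0 < X.m)
      (hfin : {v : Pr k | ¬ Gd X.M v}.Finite) (ι : Type) (Vι : Pr k → L → Finset ι)
      (w : L → Fin ℓ → ℕ) (SG : Pr k → ι → ℕ → L → L → rootsOfUnity ℓ k) (hh : L → L → L),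
      (∀ v t, (Vι v t).card ≤ K) →
      ∀ Q : Set (Pr k), (∀ v ∉ Q, Gd X.M v → ∀ t, (Vι v t).card ≤ 1) →
      ∀ B : ℕ → Finset (Pr k), (∀ x v, v ∈ B x ↔ nm v ≤ x) → ∀ δ C : ℝ, δ ≤ ε →
      (∀ x : ℕ, 2 ≤ x → |∑ v ∈ (B x).filter (· ∈ Q), (1 : ℝ) / nm v -
        δ * Real.log (Real.log x)| ≤ C) →
      SysR (Pr k × Fin ℓ) (fun p => nm p.1) {p | ¬ ℓ ∣ (p.2 : ℕ)} ((ℓ - 1 : ℕ) : ℝ) ∧
      (∃ K' : ℕ, ∀ p, ((cdL X ℓ ℓ hm hfin ι Vι (fun _ _ => True) w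
        (ggL X ℓ hm w SG hh)).V p).card ≤ K') ∧
      (∀ a : k, Polynomial.eval a f = 0 →
        Special (cdL X ℓ ℓ hm hfin ι Vι (fun _ _ => True) w (ggL X ℓ hm w SG hh))
          (X.cmp hm (algebraMap k L a))) ∧
      (∀ J : Finset (Fin X.m), (∃ a : k, Polynomial.eval a f = 0 ∧
          J = {X.cmp hm (algebraMap k L a)}) ∨
        TAR (cdL X ℓ ℓ hm hfin ι Vι (fun _ _ => True) w (ggL X ℓ hm w SG hh))
          {p : Pr k × Fin ℓ | ¬ ℓ ∣ (p.2 : ℕ)} J ∨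
        TBRbt (cdL X ℓ ℓ hm hfin ι Vι (fun _ _ => True) w (ggL X ℓ hm w SG hh)) (1 / ℓ)
          {p : Pr k × Fin ℓ | ¬ ℓ ∣ (p.2 : ℕ)} ((ℓ - 1 : ℕ) : ℝ) J) ∧
      ∀ a : k, Polynomial.eval a f = 0 → ∀ J : Finset (Fin X.m),
        X.cmp hm (algebraMap k L a) ∈ J → J ≠ {X.cmp hm (algebraMap k L a)} →
        TBRbt (cdL X ℓ ℓ hm hfin ι Vι (fun _ _ => True) w (ggL X ℓ hm w SG hh)) (1 / ℓ)
          {p : Pr k × Fin ℓ | ¬ ℓ ∣ (p.2 : ℕ)} ((ℓ - 1 : ℕ) : ℝ) J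

/-! ## The data of an action on a level `N` -/

section defs

variable {k K0 E U : Type} [Field k] [NumberField k] [Field K0] [Field E] [Field U]
  [Algebra k K0] [Algebra k E] [Algebra E U] [Algebra K0 U] [Algebra k U]

/-- At the prime `v` the action `Φ` fixes, on the level `N`, a place above the place `b` of `L0`,
and the inertia elements fix it too (for some valuation ring above `v`). -/
def OptAt (Φ : (E ≃ₐ[k] E) →* (U ≃+* U)) (N : IntermediateField E U)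
    (b : Place E (L0 E K0 (U := U))) (v : Pr k) : Prop :=
  ∃ (O : ValuationSubring E) (F : E ≃ₐ[k] E) (p f : ℕ), DecPt v O F p f ∧
    ∃ Q : Place E N, OverPl b Q ∧ Moves (Φ F) N Q Q ∧
      ∀ τ : E ≃ₐ[k] E, Inert O τ.toRingEquiv → Moves (Φ τ) N Q Q

/-- `ML.IntDat`, with a level `N`. -/
structure IntDatN (ℓ : ℕ) (h : K0) (m : ℕ) (Φ₁ : (E ≃ₐ[k] E) →* (U ≃+* U))
    (zz : Place E (L0 E K0 (U := U)) → Place E (L0 E K0 (U := U)) → U) (Bad : Set (Pr k)) (c : k)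
    (Φ : (E ≃ₐ[k] E) →* (U ≃+* U)) (N : IntermediateField E U)
    (δ : Place E (L0 E K0 (U := U)) → Place E (L0 E K0 (U := U)) → E) : Prop where
  ne : ∀ b b', BPl ℓ h b → BPl ℓ h b' → b ≠ b' → δ b b' ≠ 0
  eqv : ∀ (g : E ≃ₐ[k] E) b b' a a', BPl ℓ h b → BPl ℓ h b' → b ≠ b' → Moves (Φ₁ g) _ b a →
    Moves (Φ₁ g) _ b' a' → g (δ b b' ^ ℓ) = δ a a' ^ ℓ
  even : ∀ v ∉ Bad, ∀ (O : ValuationSubring E) (F : E ≃ₐ[k] E) (p f : ℕ), DecPt v O F p f →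
    ∀ τ : E ≃ₐ[k] E, Inert O τ.toRingEquiv → (∀ d : E, d ^ ℓ = algebraMap k E c → τ d = d) →
    ∀ b b', BPl ℓ h b → BPl ℓ h b' → b ≠ b' → τ (δ b b') = δ b b'
  odd : ∀ v ∉ Bad, IsRam ℓ v c → ∀ (O : ValuationSubring E) (F : E ≃ₐ[k] E) (p f : ℕ),
    DecPt v O F p f → ∃ (b₀ : Place E (L0 E K0 (U := U))) (P : Place E (NN E K0 ℓ (U := U)))
      (Q : Place E (NN E K0 (ℓ ^ m) (U := U))), BPl ℓ h b₀ ∧ OverPl b₀ P ∧ OverPl P Q ∧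
      Moves (Φ₁ F) _ b₀ b₀ ∧ Moves (Φ₁ F) _ Q Q ∧
      (∀ d : ℕ, d ∣ ℓ → (d : ℤ) ∣ ord b₀.ring (inL0 h) → ¬ IsRam d v c) ∧
      (∀ τ : E ≃ₐ[k] E, Inert O τ.toRingEquiv → ∀ d : E, d ^ ℓ = algebraMap k E c → τ d ≠ d →
        ∃ ω : E, ω ^ ℓ = 1 ∧ ω ^ ord b₀.ring (inL0 h) * τ d = d ∧
          ∀ b b', BPl ℓ h b → BPl ℓ h b' → b ≠ b' →
            (b = b₀ → τ (δ b b') = ω * δ b b') ∧ (b' = b₀ → ω * τ (δ b b') = δ b b') ∧
            (b ≠ b₀ → b' ≠ b₀ → τ (δ b b') = δ b b')) ∧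
      (∀ b b', BPl ℓ h b → BPl ℓ h b' → b ≠ b' → b ≠ b₀ → b' ≠ b₀ → ∀ N : ℕ,
        Moves (Φ₁ F ^ N) _ b b → Moves (Φ₁ F ^ N) _ b' b' →
        (F ^ N) (δ b b') =
          algebraMap k E ((sgn (k := k) ℓ (Φ₁ F ^ N) P (zz b b') : kˣ) : k) * δ b b') ∧
      -- the level `N`
      ∃ QN : Place E N, OverPl b₀ QN ∧ Moves (Φ F) N QN QN ∧
        ∀ τ : E ≃ₐ[k] E, Inert O τ.toRingEquiv → Moves (Φ τ) N QN QN

end defs

/-- BLOCK P7 (`ML.StmtINT` with a level `N` which contains a given finite set, as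
`TW.StmtINT2`). -/
def StmtINTN : Prop :=
  ∀ (k K0 E U : Type) [Field k] [NumberField k] [Field K0] [Field E] [Field U] [Algebra k K0]
    [Algebra k E] [Algebra E U] [Algebra K0 U] [Algebra k U] [IsScalarTower k E U]
    [IsScalarTower k K0 U] (ℓ : ℕ) (h : K0) (r : U), ℓ.Prime → HasMu k ℓ →
    Geo k K0 E U ℓ h r → ∀ (m : ℕ) (Z : Finset U), 1 ≤ m →
    ∀ zz : Place E (L0 E K0 (U := U)) → Place E (L0 E K0 (U := U)) → U,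
    (∀ b b', BPl ℓ h b → BPl ℓ h b' → b ≠ b' → IsZ ℓ b b' (zz b b')) →
    ∃ N : IntermediateField E U, TW.Lvl E K0 N ∧ MM E K0 r ≤ N ∧ (∀ z ∈ Z, z ∈ N) ∧
    ∀ (c₁ : k) (Φ₁ : (E ≃ₐ[k] E) →* (U ≃+* U)), c₁ ≠ 0 → Act (K0 := K0) ℓ r c₁ Φ₁ →
    ∃ Bad : Set (Pr k), Bad.Finite ∧ ∀ (c : k) (Φ : (E ≃ₐ[k] E) →* (U ≃+* U)), c ≠ 0 →
      Act (K0 := K0) ℓ r c Φ →
      (∀ (g : E ≃ₐ[k] E) (w : U), UR E K0 (ℓ ^ m) w → Φ g w = Φ₁ g w) →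
      ∃ δ : Place E (L0 E K0 (U := U)) → Place E (L0 E K0 (U := U)) → E,
        IntDatN ℓ h m Φ₁ zz Bad c Φ N δ

/-! ## The main statements -/

/-- `R` is the set of the branch places which are fixed by all actions, it is not empty, the number
`n` of the branch places satisfies `n ℓ ^ 2 < ℓ ^ n`, and for two places of `R`: `ℓ` is odd and every
`Φ σ` has an orbit of length prime to `ℓ` outside of them (true if the sum of the orders of `h` at the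
two places is prime to `ℓ`, because the sum of all orders is `0`). -/
structure RatSet {k K0 E U : Type} [Field k] [NumberField k] [Field K0] [Field E] [Field U]
    [Algebra k K0] [Algebra k E] [Algebra E U] [Algebra K0 U] [Algebra k U] (ℓ : ℕ) (h : K0)
    (r : U) (R : Finset (Place E (L0 E K0 (U := U)))) : Prop where
  ne : R.Nonempty
  br : ∀ b ∈ R, BPl ℓ h b
  fix : ∀ b ∈ R, ∀ (c : k) (Φ : (E ≃ₐ[k] E) →* (U ≃+* U)), c ≠ 0 → Act (K0 := K0) ℓ r c Φ →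
    ∀ σ : E ≃ₐ[k] E, Moves (Φ σ) _ b b
  only : ∀ (c : k) (Φ : (E ≃ₐ[k] E) →* (U ≃+* U)), c ≠ 0 → Act (K0 := K0) ℓ r c Φ →
    ∀ b : Place E (L0 E K0 (U := U)), BPl ℓ h b → b ∉ R → ∃ σ : E ≃ₐ[k] E, ¬ Moves (Φ σ) _ b b
  num : Nat.card {b : Place E (L0 E K0 (U := U)) // BPl ℓ h b} * ℓ ^ 2 <
    ℓ ^ Nat.card {b : Place E (L0 E K0 (U := U)) // BPl ℓ h b}
  pair : ∀ a ∈ R, ∀ b ∈ R, a ≠ b → ℓ ≠ 2 ∧ ∀ (c : k) (Φ : (E ≃ₐ[k] E) →* (U ≃+* U)), c ≠ 0 →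
    Act (K0 := K0) ℓ r c Φ → ∀ σ : E ≃ₐ[k] E, ∃ b₃ : Place E (L0 E K0 (U := U)), BPl ℓ h b₃ ∧
      b₃ ≠ a ∧ b₃ ≠ b ∧ ∃ n : ℕ, ¬ ℓ ∣ n ∧ Moves (Φ (σ ^ n)) _ b₃ b₃

/-- the property `P` holds for almost no class of `k* / k* ^ ℓ` (there are about
`X (log X) ^ (ℓ - 2)` classes with `cond ≤ X`) -/
def Rare {k : Type} [Field k] [NumberField k] (ℓ : ℕ) (P : k → Prop) : Prop :=
  ∀ ε : ℝ, 0 < ε → ∀ᶠ X : ℕ in atTop, ∀ T : Finset k,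
    (∀ c ∈ T, ∀ c' ∈ T, (∃ d : k, c = c' * d ^ ℓ) → c = c') →
    (∀ c ∈ T, c ≠ 0 ∧ LN.cond ℓ c ≤ X ∧ P c) →
    (T.card : ℝ) ≤ ε * (X * Real.log X ^ (((ℓ - 1 : ℕ) : ℝ) - 1))

/-- BLOCK P8 (the analytic theorem, as `TW3.StmtANR`). -/
def StmtAN : Prop :=
  ∀ (k K0 E U : Type) [Field k] [NumberField k] [Field K0] [Field E] [Field U] [Algebra k K0]
    [Algebra k E] [Algebra E U] [Algebra K0 U] [Algebra k U] [IsScalarTower k E U]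
    [IsScalarTower k K0 U] (ℓ : ℕ) (h : K0) (r : U), ℓ.Prime → HasMu k ℓ →
    Geo k K0 E U ℓ h r →
    ∀ R : Finset (Place E (L0 E K0 (U := U))), RatSet (k := k) ℓ h r R → ∀ Z : Finset U,
    ∃ (N : IntermediateField E U) (Bad : Set (Pr k)), TW.Lvl E K0 N ∧ MM E K0 r ≤ N ∧
      (∀ z ∈ Z, z ∈ N) ∧ Bad.Finite ∧
      ∀ ε : ℝ, 0 < ε → ∃ B : ℕ, ∀ᶠ X : ℕ in atTop, ∀ T : Finset k,
        (∀ c ∈ T, ∀ c' ∈ T, (∃ d : k, c = c' * d ^ ℓ) → c = c') →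
        (∀ c ∈ T, c ≠ 0 ∧ LN.cond ℓ c ≤ X ∧
          ∃ Φ : (E ≃ₐ[k] E) →* (U ≃+* U), Act (K0 := K0) ℓ r c Φ ∧
            ∀ b₀ ∈ R, ∃ v : Pr k, v ∉ Bad ∧ B < nm v ∧ IsRam ℓ v c ∧ ¬ OptAt Φ N b₀ v) →
        (T.card : ℝ) ≤ ε * (X * Real.log X ^ (((ℓ - 1 : ℕ) : ℝ) - 1))

open scoped Classical in
/-- BLOCK P9a (as `L.StmtCT`, from `LN.StmtUP` and the finiteness of the number of classes with the
same labels, `ML.StmtCLL`): almost all classes are ramified at a prime of a set `Q` of positive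
density. -/
def StmtCT : Prop :=
  ∀ (k : Type) [Field k] [NumberField k] (ℓ : ℕ), ℓ.Prime → HasMu k ℓ →
    ∀ B : ℕ → Finset (Pr k), (∀ x v, v ∈ B x ↔ nm v ≤ x) →
    ∀ (δ C : ℝ) (Q Bad : Set (Pr k)), Bad.Finite → 0 < δ →
    (∀ x : ℕ, 2 ≤ x →
      |∑ v ∈ (B x).filter (· ∈ Q), (1 : ℝ) / nm v - δ * Real.log (Real.log x)| ≤ C) →
    Rare ℓ (fun c : k => ∀ v ∈ Q, v ∉ Bad → ¬ IsRam ℓ v c)

/-- BLOCK P9 (as `TW.StmtLVL`; from P9a, from `StmtAN`, `ML.StmtLM`, `ML.StmtHF`, `LN.StmtUP`, ...): for 100% of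
the `c`, for every action there is `b₀ ∈ R` such that all elements fix a place above `b₀` of the level
`N'`, abelian of exponent `ℓ` over `L0`. -/
def StmtLVL : Prop :=
  ∀ (k K0 E U : Type) [Field k] [NumberField k] [Field K0] [Field E] [Field U] [Algebra k K0]
    [Algebra k E] [Algebra E U] [Algebra K0 U] [Algebra k U] [IsScalarTower k E U]
    [IsScalarTower k K0 U] (ℓ : ℕ) (h : K0) (r : U), ℓ.Prime → HasMu k ℓ →
    Geo k K0 E U ℓ h r →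
    ∀ R : Finset (Place E (L0 E K0 (U := U))), RatSet (k := k) ℓ h r R →
    ∀ N' : IntermediateField E U, TW.Lvl E K0 N' → MM E K0 r ≤ N' →
    (∀ a b : U ≃ₐ[E] U, (∀ x ∈ L0 E K0 (U := U), a x = x) →
      (∀ x ∈ L0 E K0 (U := U), b x = x) → ∀ x ∈ N', a (b x) = b (a x)) →
    (∀ a : U ≃ₐ[E] U, (∀ x ∈ L0 E K0 (U := U), a x = x) → ∀ x ∈ N', (a ^ ℓ) x = x) →
    Rare ℓ (fun c : k => ∃ Φ : (E ≃ₐ[k] E) →* (U ≃+* U), Act (K0 := K0) ℓ r c Φ ∧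
      ∀ b₀ ∈ R, ∃ σ : E ≃ₐ[k] E, ¬ ∃ Q : Place E N', OverPl b₀ Q ∧ Moves (Φ σ) N' Q Q)

/-- BLOCK P10 (the ratio): the number of classes with `cond ≤ X` is at least
`δ X (log X) ^ (ℓ - 2)`, thus a rare property holds for 0% of the classes. -/
def StmtRat : Prop :=
  ∀ (k : Type) [Field k] [NumberField k] (ℓ : ℕ), ℓ.Prime → HasMu k ℓ → ∀ P : k → Prop,
    Rare ℓ P →
    (∀ X : ℕ, (LN.clsP (k := k) ℓ (fun _ => True) X).Finite) ∧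
    Tendsto (fun X : ℕ => (Nat.card (LN.clsP (k := k) ℓ P X) : ℝ) /
      Nat.card (LN.clsP (k := k) ℓ (fun _ => True) X)) atTop (𝓝 0)

end

end Pool.Agent.PD
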