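import Pool.Agent.Helper45.PD.Defs2
import Pool.Agent.Helper37.TW3.Defs

/-!
# Project PD (MP_e66f84_ag), the line: the case `ℓ = 2`, and all primes together

The points of the line over `E`: `Option E`, `none` is infinity.
-/

set_option autoImplicit false

namespace Pool.Agent.PDL

open VC IntermediateField NumberField IsDedekindDomain Pool.Agent.SC Pool.Agent.Helper91.Sect
open Filter Topology
open Pool.Agent.L (L0 MM)
open Pool.Agent.LN (Geo Act GoodCurve)
open Pool.Agent.M (Moves OverPl inL0)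
open Pool.Agent.ML (HasMu BPl)

noncomputable section

/-- the point `p` of the line is a branch point of `y ^ ℓ = f(x)` -/
def BrP {k E : Type} [Field k] [Field E] [Algebra k E] (ℓ : ℕ) (f : Polynomial k) :
    Option E → Prop
  | none => ¬ ℓ ∣ f.natDegree
  | some e => IsBr ℓ f e

/-- the difference of two points, `1` if one of them is infinity -/
def dif {E : Type} [Field E] : Option E → Option E → E
  | some p, some q => p - q
  | _, _ => 1

/-- For two rational branch points `a`, `b` there are two other branch points `p ≠ q` such that the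
cross ratio of `a`, `b`, `p`, `q` is not a square in `k(p, q)`. -/
def Cross (k E : Type) [Field k] [Field E] [Algebra k E] (f : Polynomial k) : Prop :=
  ∀ a b : Option k, a ≠ b → BrP 2 f (a.map (algebraMap k E)) → BrP 2 f (b.map (algebraMap k E)) →
    ∃ p q : Option E, BrP 2 f p ∧ BrP 2 f q ∧ p ≠ q ∧ p ≠ a.map (algebraMap k E) ∧
      p ≠ b.map (algebraMap k E) ∧ q ≠ a.map (algebraMap k E) ∧ q ≠ b.map (algebraMap k E) ∧
      ∀ z ∈ IntermediateField.adjoin k {e : E | p = some e ∨ q = some e},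
        z ^ 2 ≠ dif p (a.map (algebraMap k E)) * dif p (b.map (algebraMap k E)) *
          (dif q (a.map (algebraMap k E)) * dif q (b.map (algebraMap k E)))

/-- BLOCK E1: the case `ℓ = 2` of `PD.StmtLVL`, for `TW3.ManyRat` (translation of `L.Geo`, `L.Act`,
`M.BPl`, `HG.cond`, `TW.Rare`). -/
def StmtLVL2 : Prop :=
  TW3.StmtLVLR → ∀ (k K0 E U : Type) [Field k] [NumberField k] [Field K0] [Field E] [Field U]
    [Algebra k K0] [Algebra k E] [Algebra E U] [Algebra K0 U] [Algebra k U] [IsScalarTower k E U]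
    [IsScalarTower k K0 U] (h : K0) (r : U), Geo k K0 E U 2 h r →
    ∀ R : Finset (Place E (L0 E K0 (U := U))), TW3.ManyRat (k := k) h r R →
    ∀ N' : IntermediateField E U, TW.Lvl E K0 N' → MM E K0 r ≤ N' →
    (∀ a : U ≃ₐ[E] U, (∀ x ∈ L0 E K0 (U := U), a x = x) → ∀ x ∈ N', (a ^ 2) x = x) →
    PD.Rare 2 (fun c : k => ∃ Φ : (E ≃ₐ[k] E) →* (U ≃+* U), Act (K0 := K0) 2 r c Φ ∧
      ∀ b₀ ∈ R, ∃ σ : E ≃ₐ[k] E, ¬ ∃ Q : Place E N', OverPl b₀ Q ∧ Moves (Φ σ) N' Q Q)

/-- BLOCK E2 (`TW3.StmtMR` for all polynomials): `ManyRat` for `y ^ 2 = f(x)`. -/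
def StmtRS2 : Prop :=
  ∀ (k K0 E U : Type) [Field k] [NumberField k] [Field K0] [Field E] [Field U] [Algebra k K0]
    [Algebra k E] [Algebra E U] [Algebra K0 U] [Algebra k U] [IsScalarTower k E U]
    [IsScalarTower k K0 U] (x : K0) (f : Polynomial k) (r : U), HypL E 2 x f r →
    (∃ u : K0, IsRatBr 2 x f u) → 5 ≤ numBr k E 2 f → Third k E 2 f → Cross k E f →
    ∃ R : Finset (Place E (L0 E K0 (U := U))), TW3.ManyRat (k := k) (Polynomial.aeval x f) r R ∧
      ∀ b ∈ R, ∃ u : K0, IsRatBr 2 x f u ∧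
        ∀ Q : Place E (YL E K0 2 (U := U)), OverPl b Q → PoleAt u Q

/-- BLOCK E3: THE THEOREM at the level `1 - ζ`, all primes (`StmtOneL`, and for `ℓ = 2` from
`StmtLVL2`, `StmtRS2`). -/
def StmtOneA : Prop :=
  ∀ (k K0 E U : Type) [Field k] [NumberField k] [Field K0] [Field E] [Field U] [Algebra k K0]
    [Algebra k E] [Algebra E U] [Algebra K0 U] [Algebra k U] [IsScalarTower k E U]
    [IsScalarTower k K0 U] (ℓ : ℕ) (x : K0) (f : Polynomial k) (r : U), ℓ.Prime →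
    HasMu k ℓ → HypL E ℓ x f r → (∃ u : K0, IsRatBr ℓ x f u) →
    numBr k E ℓ f * ℓ ^ 2 < ℓ ^ numBr k E ℓ f → Third k E ℓ f → (ℓ = 2 → Cross k E f) →
    PD.Rare ℓ (fun c : k => ∃ Φ : (E ≃ₐ[k] E) →* (U ≃+* U), Act (K0 := K0) ℓ r c Φ ∧
      ¬ ∃ u : K0, IsRatBr ℓ x f u ∧ ∃ Q : Place E (YL E K0 ℓ (U := U)), PoleAt u Q ∧
        ∀ g : E ≃ₐ[k] E, Moves (Φ g) _ Q Q)

/-- BLOCK E4: THE FINAL THEOREM for all primes (0% of the classes, ordered by `LN.cond`). -/
def StmtFinA : Prop :=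
  ∀ (k : Type) [Field k] [NumberField k] (ℓ : ℕ) (f : Polynomial k), ℓ.Prime →
    HasMu k ℓ → 3 ≤ numBr k (AlgebraicClosure k) ℓ f →
    (ℓ = 3 → 4 ≤ numBr k (AlgebraicClosure k) ℓ f) →
    (ℓ = 2 → 5 ≤ numBr k (AlgebraicClosure k) ℓ f) → Third k (AlgebraicClosure k) ℓ f →
    (ℓ = 2 → Cross k (AlgebraicClosure k) f) →
    Tendsto (fun X : ℕ => (Nat.card (LN.clsP (k := k) ℓ (OthL f ℓ) X) : ℝ) /
      Nat.card (LN.clsP (k := k) ℓ (fun _ => True) X)) atTop (𝓝 0)

end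

end Pool.Agent.PDL
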