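import Pool.Agent.Helper97.PD.Defs2

/-!
# Project PD: the number of branch points, as points of the projective line
-/

set_option autoImplicit false

namespace Pool.Agent.PDL

open Polynomial

variable {k E : Type} [Field k] [Field E] [Algebra k E] {ℓ : ℕ} {f : k[X]}

open scoped Classical in
theorem finite_isBr (ℓ : ℕ) (f : k[X]) : {e : E | IsBr ℓ f e}.Finite := by
  refine ((f.map (algebraMap k E)).roots.toFinset.finite_toSet).subset ?_
  intro e he
  have h1 : ¬ ℓ ∣ (f.map (algebraMap k E)).rootMultiplicity e := he
  have h2 : (f.map (algebraMap k E)).rootMultiplicity e ≠ 0 := fun h => h1 (h ▸ dvd_zero ℓ)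
  rw [Finset.mem_coe, Multiset.mem_toFinset, ← Multiset.count_ne_zero, count_roots]
  exact h2

theorem card_brP (ℓ : ℕ) (f : k[X]) :
    Nat.card {p : Option E // BrP ℓ f p} = numBr k E ℓ f := by
  have hfin : Finite {e : E // IsBr ℓ f e} := (finite_isBr (E := E) ℓ f).to_subtype
  unfold numBr
  by_cases h : ℓ ∣ f.natDegree
  · rw [if_pos h, add_zero]
    refine Nat.card_congr ?_
    exact {
      toFun := fun p => match p with
        | ⟨none, hp⟩ => absurd h hp
        | ⟨some e, hp⟩ => ⟨e, hp⟩
      invFun := fun e => ⟨some e.1, e.2⟩
      left_inv := by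
        rintro ⟨_ | e, hp⟩
        · exact absurd h hp
        · rfl
      right_inv := fun e => rfl }
  · rw [if_neg h, ← Finite.card_option]
    refine Nat.card_congr ?_
    exact {
      toFun := fun p => match p with
        | ⟨none, _⟩ => none
        | ⟨some e, hp⟩ => some ⟨e, hp⟩
      invFun := fun e => match e with
        | none => ⟨none, h⟩
        | some e => ⟨some e.1, e.2⟩
      left_inv := by
        rintro ⟨_ | e, hp⟩
        · rfl
        · rfl
      right_inv := by
        rintro (_ | e)
        · rfl
        · rfl }

end Pool.Agent.PDL
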