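import Pool.Agent.Helper97.PD.AllA
import Pool.Agent.Helper97.PD.Br
import Pool.Agent.Helper37.TW3.AllB
import Pool.Agent.Helper37.PD.PtsP
import Pool.Agent.Helper45.PD.OneA
import Pool.Agent.Helper10.PD.E1
import Pool.Agent.Helper28.PD.RS2
import Pool.Agent.Helper77.PD.AllQ
import Pool.Agent.Helper97.TW.AllS

/-!
# Project PD: everything

**The final theorem.**  Let `ℓ` be a prime, `k` a number field with the `ℓ`-th roots of unity and
`f ∈ k[x]` with enough branch points.  For 100 percent of `c ∈ k* / k* ^ ℓ` every Galois section of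
`y ^ ℓ = c f(x)`, and of every curve above it, agrees modulo `1 - ζ` with a rational branch point.
-/

set_option autoImplicit false

namespace Pool.Agent.PDL

theorem oneA : StmtOneA := oneA_of PD.stmtLVL lVL2 TW3.stmtLVLR rS rS2

/-- **Project PD, the final theorem.** -/
theorem rareA (k : Type) [Field k] [NumberField k] (ℓ : ℕ)
    (f : Polynomial k) (hℓ : ℓ.Prime) (hmu : ML.HasMu k ℓ)
    (h3 : 3 ≤ numBr k (AlgebraicClosure k) ℓ f)
    (h4 : ℓ = 3 → 4 ≤ numBr k (AlgebraicClosure k) ℓ f)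
    (h5 : ℓ = 2 → 5 ≤ numBr k (AlgebraicClosure k) ℓ f) (hT : Third k (AlgebraicClosure k) ℓ f)
    (hC : ℓ = 2 → Cross k (AlgebraicClosure k) f) : PD.Rare ℓ (OthL f ℓ) :=
  rareA_one oneA k ℓ f hℓ hmu h3 h4 h5 hT hC

end Pool.Agent.PDL
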