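import Pool.Agent.Helper13.MLT.All
import Pool.Agent.Helper37.PD.CNb
import Pool.Agent.Helper99.PD.CountL
import Pool.Agent.Helper88.PD.BTLP
import Pool.Agent.Helper90.PD.BTPL
import Pool.Agent.Helper20.PD.G1
import Pool.Agent.Helper13.PD.G3
import Pool.Agent.Helper79.PD.INTN
import Pool.Agent.Helper59.PD.AN
import Pool.Agent.Helper59.TW.TRV
import Pool.Agent.Helper77.PD.CT
import Pool.Agent.Helper29.PD.LVL

/-!
# Project PD: the arithmetic half
-/

set_option autoImplicit false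

namespace Pool.Agent.PD

open Pool.Agent.ML

theorem stmtAN : StmtAN := by
  have hLM : StmtLM := lm (Pool.Agent.L.stmtK2 Pool.Agent.L.stmtK1) Pool.Agent.LN.k3 k4M
    Pool.Agent.L.stmtAR
  have hFIN : StmtFIN := fin hLM M.fT hf Pool.Agent.LN.fr Pool.Agent.L.stmtAR
  have hINTN : StmtINTN := iNTN hLM M.fT coc nR Pool.Agent.L.stmtAR
  have hQMD : StmtQMD := qMD (pI M.fT) w4 (qW M.fT (M.w1 M.fT)) w2
  exact aN PD37.countN PD99.countL99 btlp btpl g1 g3 hINTN nR M.fb hFIN z lft (mU M.fT) hQMD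
    M.w3 sel Pool.Agent.Helper21.HG.mert Pool.Agent.Helper21.HG.split MP.dk btl
    Pool.Agent.Helper88.HG.thue g4P g2 cLL

/-- **Project PD, the arithmetic half.** -/
theorem stmtLVL : StmtLVL := by
  have hLM : StmtLM := lm (Pool.Agent.L.stmtK2 Pool.Agent.L.stmtK1) Pool.Agent.LN.k3 k4M
    Pool.Agent.L.stmtAR
  exact lvl stmtAN hLM Pool.Agent.LN.k3 Pool.Agent.L.stmtAR hf M.w3 ct TW.trv Pool.Agent.LN.fr

end Pool.Agent.PD
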